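import Mathlib

/-!
# Strong arboricity of planar graphs: definitions

Everything is on finite vertex types `V : Type`.  Degrees, counts: `Set.ncard`.
-/

namespace StrongArb

/-! ## The affine plane over the field with three elements -/

/-- the nine colours -/
abbrev Pt : Type := ZMod 3 × ZMod 3

/-- The four linear forms; their level sets are the twelve lines of the plane. -/
def form (s : Fin 4) (q : Pt) : ZMod 3 :=
  if s = 0 then q.1 else if s = 1 then q.2 else if s = 2 then q.1 + q.2 else q.1 - q.2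

/-- the edges of `G` whose two ends lie on a line of slope `s` -/
def slopeGraph {V : Type} (G : SimpleGraph V) (p : V → Pt) (s : Fin 4) : SimpleGraph V where
  Adj u v := G.Adj u v ∧ form s (p u) = form s (p v)
  symm := ⟨fun _ _ h => ⟨h.1.symm, h.2.symm⟩⟩
  loopless := ⟨fun _ h => G.loopless.irrefl _ h.1⟩

/-- A good map: proper, and the preimage of every line induces a forest. -/
structure Good {V : Type} (G : SimpleGraph V) (p : V → Pt) : Prop where
  proper : ∀ u v, G.Adj u v → p u ≠ p v
  forest : ∀ s, (slopeGraph G p s).IsAcyclic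

/-! ## Whitney duals -/

/-- `F` is a finite set of edges of `G` meeting every vertex an even number of times. -/
def EvenSet {V : Type} (G : SimpleGraph V) (F : Set (Sym2 V)) : Prop :=
  F ⊆ G.edgeSet ∧ ∀ v : V, Even ({e | e ∈ F ∧ v ∈ e} : Set (Sym2 V)).ncard

/-- `F` is the set of edges of `G` whose two dual ends are separated by `S`. -/
def IsDualCut {V : Type} (G : SimpleGraph V) {W : Type} (ends : Sym2 V → W × W)
    (S : Set W) (F : Set (Sym2 V)) : Prop :=
  ∀ e, e ∈ F ↔ e ∈ G.edgeSet ∧ ¬ ((ends e).1 ∈ S ↔ (ends e).2 ∈ S)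

/-- `G` has an abstract dual with vertex set `W`: the cycle space of `G` is the cut space
of the dual. -/
def IsDual {V : Type} (G : SimpleGraph V) {W : Type} (ends : Sym2 V → W × W) : Prop :=
  ∀ F : Set (Sym2 V), EvenSet G F ↔ ∃ S : Set W, IsDualCut G ends S F

/-- the class of graphs with an abstract dual (= planar graphs, by Whitney) -/
def HasDual {V : Type} (G : SimpleGraph V) : Prop :=
  ∃ (W : Type) (_ : Finite W) (ends : Sym2 V → W × W), IsDual G ends

/-! ## Minors, contractions -/

/-- the fibre of `φ` over `a` induces a connected subgraph -/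
def FibreConn {V V' : Type} (G : SimpleGraph V) (φ : V → V') (a : V') : Prop :=
  (G.induce {v | φ v = a}).Connected

/-- `H` is a minor of `G` through the partial map `φ` -/
structure MinorMap {V V' : Type} (G : SimpleGraph V) (H : SimpleGraph V')
    (φ : V → Option V') : Prop where
  conn : ∀ a : V', (G.induce {v | φ v = some a}).Connected
  adj : ∀ a b : V', H.Adj a b → ∃ u v, φ u = some a ∧ φ v = some b ∧ G.Adj u v

/-- The contraction of `G` along `φ : V → V` (read on the range of `φ`, the other vertices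
are isolated). -/
def contract {V : Type} (G : SimpleGraph V) (φ : V → V) : SimpleGraph V where
  Adj a b := a ≠ b ∧ ∃ u v, φ u = a ∧ φ v = b ∧ G.Adj u v
  symm := ⟨fun _ _ h => ⟨h.1.symm, by
    obtain ⟨_, u, v, hu, hv, huv⟩ := h
    exact ⟨v, u, hv, hu, huv.symm⟩⟩⟩
  loopless := ⟨fun _ h => h.1 rfl⟩

/-! ## Cyclic lists -/

/-- positions `i`, `j` are cyclically consecutive modulo `n` -/
def CycAdj (n i j : ℕ) : Prop := j = (i + 1) % n ∨ i = (j + 1) % n

/-- `l` is an induced cycle of length at least four -/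
structure IsIndCycle {V : Type} (G : SimpleGraph V) (l : List V) : Prop where
  nodup : l.Nodup
  len : 4 ≤ l.length
  adj : ∀ i j (hi : i < l.length) (hj : j < l.length),
    G.Adj l[i] l[j] ↔ CycAdj l.length i j

/-- `l` is the link of `v`: the neighbours of `v` in cyclic order, inducing a cycle -/
structure IsLink {V : Type} (G : SimpleGraph V) (v : V) (l : List V) : Prop extends
    IsIndCycle G l where
  mem : ∀ x, x ∈ l ↔ G.Adj v x

/-- degree -/
noncomputable def dg {V : Type} (G : SimpleGraph V) (v : V) : ℕ := (G.neighborSet v).ncard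

/-- number of neighbours of `v` in `X` -/
noncomputable def dgIn {V : Type} (G : SimpleGraph V) (X : Set V) (v : V) : ℕ :=
  ({x | x ∈ X ∧ G.Adj v x} : Set V).ncard

/-! ## The minimal counterexample -/

structure MinCE {V : Type} (G : SimpleGraph V) : Prop where
  fin : Finite V
  conn : G.Connected
  link : ∀ v, ∃ l, IsLink G v l
  bound : ∀ {V' : Type} [Finite V'] (H : SimpleGraph V') (φ : V → Option V'),
    MinorMap G H φ → H.Connected → 3 ≤ Nat.card V' → H.edgeSet.ncard + 6 ≤ 3 * Nat.card V'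
  bad : ¬ ∃ p, Good G p
  min : ∀ φ : V → V, ¬ Function.Injective φ → (∀ a ∈ Set.range φ, FibreConn G φ a) →
    ∃ p, Good (contract G φ) p

/-! ## Regions -/

/-- An innermost region: `C` an induced cycle of length four or five, `X` one side of it. -/
structure Region {V : Type} (G : SimpleGraph V) (C : List V) (X : Set V) : Prop where
  cyc : IsIndCycle G C
  len : C.length ≤ 5
  disj : ∀ x ∈ X, x ∉ C
  nbr : ∀ x ∈ X, ∀ y, G.Adj x y → y ∈ X ∨ y ∈ C
  out : ∀ z ∈ C, ∃ y, G.Adj z y ∧ y ∉ X ∧ y ∉ C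
  small : ∀ C' : List V, IsIndCycle G C' → C'.length ≤ 5 → (∀ x ∈ C', x ∈ X ∨ x ∈ C) →
    (∃ x ∈ C', x ∈ X) → ∃ w ∈ X, IsLink G w C'
  common : ∀ x ∈ C, ∀ y ∈ C, x ≠ y → ¬ G.Adj x y → ∀ t ∈ X, ¬ (G.Adj t x ∧ G.Adj t y)
  inner : ∀ z ∈ C, 2 ≤ dgIn G X z
  no44 : ∀ u ∈ X, ∀ v ∈ X, G.Adj u v → dg G u = 4 → dg G v ≠ 4
  no45 : ∀ u ∈ X, ∀ v ∈ X, G.Adj u v → dg G u = 4 → dg G v ≠ 5
  euler : (6 : ℤ) ≤ (∑ᶠ x ∈ X, (6 - (dg G x : ℤ))) + (C.map (fun z => 2 - (dgIn G X z : ℤ))).sum

/-! ## Label complexes -/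

/-- A list of entries `(v, l)`: the label `v` has the cyclic list `l` of neighbour labels. -/
abbrev Entries : Type := List (ℕ × List ℕ)

/-- `ψ` realizes the entries in the region `X` of `G` -/
def Realizes {V : Type} (G : SimpleGraph V) (X : Set V) (E : Entries) (ψ : ℕ → V) : Prop :=
  ∀ e ∈ E, ψ e.1 ∈ X ∧ IsLink G (ψ e.1) (e.2.map ψ)

end StrongArb
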