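import Pool.Agent.Lib.MP_39c2b7_co.Defs

/-!
# Strong arboricity of planar graphs: statements of the data-independent modules
-/

namespace StrongArb

/-! ## PL: planarity layer -/

/-- PL1: T-joins in connected graphs. -/
def TjoinStatement : Prop :=
  ∀ (V : Type) [Finite V] (G : SimpleGraph V), G.Connected → ∀ T : Set V, Even T.ncard →
    ∃ F : Set (Sym2 V), F ⊆ G.edgeSet ∧
      ∀ v, Odd ({e | e ∈ F ∧ v ∈ e} : Set (Sym2 V)).ncard ↔ v ∈ T

/-- PL2: graphs with a dual are closed under minors. -/
def DualMinorStatement : Prop :=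
  ∀ (V V' : Type) [Finite V] [Finite V'] (G : SimpleGraph V) (H : SimpleGraph V')
    (φ : V → Option V'), HasDual G → MinorMap G H φ → HasDual H

/-- PL3: the edge bound. -/
def DualBoundStatement : Prop :=
  ∀ (V : Type) [Finite V] (G : SimpleGraph V), HasDual G → G.Connected → 3 ≤ Nat.card V →
    G.edgeSet.ncard + 6 ≤ 3 * Nat.card V

/-- PL4: two edges at `v` on a common face: the third side of the triangle can be added. -/
def DualSplitStatement : Prop :=
  ∀ (V : Type) [Finite V] (G : SimpleGraph V) (W : Type) [Finite W] (ends : Sym2 V → W × W),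
    IsDual G ends → ∀ (v x y : V) (w : W), x ≠ y → G.Adj v x → G.Adj v y → ¬ G.Adj x y →
      ((ends s(v, x)).1 = w ∨ (ends s(v, x)).2 = w) →
      ((ends s(v, y)).1 = w ∨ (ends s(v, y)).2 = w) →
      HasDual (G ⊔ SimpleGraph.fromEdgeSet {s(x, y)})

/-- five disjoint connected pairwise adjacent vertex sets -/
def HasK5Minor {V : Type} (G : SimpleGraph V) : Prop :=
  ∃ A : Fin 5 → Set V, (∀ i, (G.induce (A i)).Connected) ∧
    (∀ i j, i ≠ j → Disjoint (A i) (A j)) ∧
    (∀ i j, i ≠ j → ∃ u ∈ A i, ∃ v ∈ A j, G.Adj u v)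

/-- PL5: links in edge-maximal graphs with a dual and without clique cuts are cycles. -/
def LinkStatement : Prop :=
  ∀ (V : Type) [Finite V] (G : SimpleGraph V), G.Connected → 5 ≤ Nat.card V → HasDual G →
    (∀ x y, x ≠ y → ¬ G.Adj x y → ¬ HasDual (G ⊔ SimpleGraph.fromEdgeSet {s(x, y)})) →
    (∀ S : Set V, S.ncard ≤ 3 → G.IsClique S → (G.induce Sᶜ).Preconnected) →
    ¬ HasK5Minor G →
    ∀ v, ∃ l, IsLink G v l

/-- A rotation system: a permutation of the darts whose cycles are the vertex stars. -/
structure IsRotation {V : Type} (G : SimpleGraph V) (rot : Equiv.Perm G.Dart) : Prop where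
  fst : ∀ d, (rot d).fst = d.fst
  trans : ∀ d d' : G.Dart, d.fst = d'.fst → rot.SameCycle d d'

/-- the face permutation: go along the dart, then rotate -/
def facePerm {V : Type} (G : SimpleGraph V) (rot : Equiv.Perm G.Dart) : Equiv.Perm G.Dart :=
  (Equiv.mk SimpleGraph.Dart.symm SimpleGraph.Dart.symm SimpleGraph.Dart.symm_symm
    SimpleGraph.Dart.symm_symm : Equiv.Perm G.Dart).trans rot

/-- number of faces: orbits of the face permutation, plus one for every isolated vertex -/
noncomputable def faceCount {V : Type} (G : SimpleGraph V) (rot : Equiv.Perm G.Dart) : ℕ :=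
  Nat.card (Quotient (Equiv.Perm.SameCycle.setoid (facePerm G rot))) +
    ({v | ∀ w, ¬ G.Adj v w} : Set V).ncard

/-- A finite graph is planar if it has a rotation system of genus zero:
`V - E + F = 2 C` (Euler's formula, `C` = number of connected components). -/
def IsPlanar {V : Type} (G : SimpleGraph V) : Prop :=
  ∃ rot : Equiv.Perm G.Dart, IsRotation G rot ∧
    Nat.card V + faceCount G rot = G.edgeSet.ncard + 2 * Nat.card G.ConnectedComponent

/-- PL6: planar graphs have duals. -/
def PlanarDualStatement : Prop :=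
  ∀ (V : Type) [Finite V] (G : SimpleGraph V), IsPlanar G → HasDual G

/-! ## B: the minimal counterexample -/

/-- B0: affine maps act on good maps; frames can be moved to frames. -/
def FrameStatement : Prop :=
  (∀ (a b : Pt), a ≠ b → ∀ (a' b' : Pt), a' ≠ b' → ∃ g : Pt ≃ Pt, g a = a' ∧ g b = b' ∧
    ∃ π : Equiv.Perm (Fin 4), ∀ s x y, form s (g x) = form s (g y) ↔ form (π s) x = form (π s) y) ∧
  (∀ (a b c a' b' c' : Pt), a ≠ b → a ≠ c → b ≠ c → a' ≠ b' → a' ≠ c' → b' ≠ c' →
    (∀ s, ¬ (form s a = form s b ∧ form s a = form s c)) →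
    (∀ s, ¬ (form s a' = form s b' ∧ form s a' = form s c')) →
    ∃ g : Pt ≃ Pt, g a = a' ∧ g b = b' ∧ g c = c' ∧
      ∃ π : Equiv.Perm (Fin 4), ∀ s x y,
        form s (g x) = form s (g y) ↔ form (π s) x = form (π s) y)

/-- B1: gluing along a clique with at most three vertices. -/
def GlueStatement : Prop :=
  ∀ (V : Type) [Finite V] (G : SimpleGraph V) (A B : Set V), A ∪ B = Set.univ →
    (∀ x ∈ A \ B, ∀ y ∈ B \ A, ¬ G.Adj x y) → G.IsClique (A ∩ B) → (A ∩ B).ncard ≤ 3 →
    (∃ p, Good (G.induce A) p) → (∃ p, Good (G.induce B) p) → ∃ p, Good G p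

/-- B2: graphs with at most four vertices. -/
def SmallStatement : Prop :=
  ∀ (V : Type) [Finite V] (G : SimpleGraph V), Nat.card V ≤ 4 → ∃ p, Good G p

/-- B3: a minimal counterexample exists if there is a counterexample. -/
def MinCEStatement : Prop :=
  (∃ (V : Type) (_ : Finite V) (G : SimpleGraph V), HasDual G ∧ ¬ ∃ p, Good G p) →
    ∃ (V : Type) (G : SimpleGraph V), MinCE G

/-! ## C: separation and regions -/

/-- C1: no K5 minor. -/
def NoK5Statement : Prop :=
  ∀ (V : Type) (G : SimpleGraph V), MinCE G → ¬ HasK5Minor G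

/-- `X`, `Y` are the two sides of the induced cycle `C` -/
structure Sides {V : Type} (G : SimpleGraph V) (C : List V) (X Y : Set V) : Prop where
  connX : (G.induce X).Connected
  connY : (G.induce Y).Connected
  cover : ∀ v, v ∈ C ∨ v ∈ X ∨ v ∈ Y
  disjX : ∀ v ∈ X, v ∉ C
  disjY : ∀ v ∈ Y, v ∉ C
  disj : ∀ v ∈ X, v ∉ Y
  sep : ∀ x ∈ X, ∀ y ∈ Y, ¬ G.Adj x y
  attX : ∀ z ∈ C, ∃ x ∈ X, G.Adj z x
  attY : ∀ z ∈ C, ∃ y ∈ Y, G.Adj z y
  /-- every edge of the cycle has one common neighbour on each side -/
  apexX : ∀ z ∈ C, ∀ z' ∈ C, G.Adj z z' → ∃ x ∈ X, G.Adj x z ∧ G.Adj x z'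
  apexY : ∀ z ∈ C, ∀ z' ∈ C, G.Adj z z' → ∃ y ∈ Y, G.Adj y z ∧ G.Adj y z'

/-- C2: separation. -/
def SeparationStatement : Prop :=
  ∀ (V : Type) (G : SimpleGraph V), MinCE G → ∀ C : List V, IsIndCycle G C →
    ∃ X Y : Set V, Sides G C X Y

/-- C3: Euler count for one side. -/
def SideEulerStatement : Prop :=
  ∀ (V : Type) (G : SimpleGraph V), MinCE G → ∀ (C : List V) (X Y : Set V), IsIndCycle G C →
    Sides G C X Y →
    (6 : ℤ) ≤ (∑ᶠ x ∈ X, (6 - (dg G x : ℤ))) + (C.map (fun z => 2 - (dgIn G X z : ℤ))).sum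

/-! ## Patterns -/

/-- `a`, `b` are cyclically consecutive entries of `l` -/
def ConsIn (l : List ℕ) (a b : ℕ) : Prop :=
  ∃ i j, ∃ (hi : i < l.length) (hj : j < l.length), l[i] = a ∧ l[j] = b ∧ CycAdj l.length i j

/-- A pattern with a contraction.  Interior labels are `v < links.length`, with cyclic list
`links[v]`; the labels `links.length ≤ r < N` are the ring labels; `blk[a]` is the block of
the label `a`. -/
structure Pat where
  links : List (List ℕ)
  N : ℕ
  blk : List ℕ

namespace Pat

/-- number of interior labels -/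
def nI (P : Pat) : ℕ := P.links.length

def link (P : Pat) (v : ℕ) : List ℕ := P.links.getD v []

def block (P : Pat) (a : ℕ) : ℕ := P.blk.getD a 0

def entries (P : Pat) : Entries := (List.range P.nI).map (fun v => (v, P.link v))

def IsRing (P : Pat) (r : ℕ) : Prop := P.nI ≤ r ∧ r < P.N

/-- The configuration graph on the labels. -/
def K (P : Pat) : SimpleGraph ℕ where
  Adj a b := a ≠ b ∧ ∃ v, v < P.nI ∧
    ((a = v ∧ b ∈ P.link v) ∨ (b = v ∧ a ∈ P.link v) ∨ ConsIn (P.link v) a b ∨
      ConsIn (P.link v) b a)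
  symm := ⟨fun _ _ h => ⟨h.1.symm, by
    obtain ⟨_, v, hv, h⟩ := h
    exact ⟨v, hv, by tauto⟩⟩⟩
  loopless := ⟨fun _ h => h.1 rfl⟩

/-- The contracted graph on the blocks. -/
def Q (P : Pat) : SimpleGraph ℕ where
  Adj b c := b ≠ c ∧ ∃ x y, P.K.Adj x y ∧ P.block x = b ∧ P.block y = c
  symm := ⟨fun _ _ h => ⟨h.1.symm, by
    obtain ⟨_, x, y, h, hx, hy⟩ := h
    exact ⟨y, x, h.symm, hy, hx⟩⟩⟩
  loopless := ⟨fun _ h => h.1 rfl⟩

/-- basic consistency of the data: all labels of the links are `< N`, the links have no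
repetition and length at least four, the relation between links is symmetric on interior
labels, the graph `K` is the union of the wheels (nothing to check), every block is connected
through edges with an interior end, and there are fewer blocks than labels. -/
structure WF (P : Pat) : Prop where
  lt : ∀ v, v < P.nI → ∀ a ∈ P.link v, a < P.N
  le : P.nI ≤ P.N
  nodup : ∀ v, v < P.nI → (P.link v).Nodup
  len : ∀ v, v < P.nI → 4 ≤ (P.link v).length
  irrefl : ∀ v, v < P.nI → v ∉ P.link v
  symm : ∀ v w, v < P.nI → w < P.nI → w ∈ P.link v → v ∈ P.link w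
  cons : ∀ v w a, v < P.nI → w < P.nI → w ∈ P.link v → ConsIn (P.link v) w a →
    ConsIn (P.link w) v a
  /-- every block is connected by edges having an interior end -/
  conn : ∀ a b, a < P.N → b < P.N → P.block a = P.block b →
    Relation.ReflTransGen (fun x y => P.K.Adj x y ∧ (x < P.nI ∨ y < P.nI) ∧
      P.block x = P.block a ∧ P.block y = P.block a ∧ x < P.N ∧ y < P.N) a b
  merge : ∃ a b, a < P.N ∧ b < P.N ∧ a ≠ b ∧ P.block a = P.block b

/-- Every good map of the contracted graph extends to a good map of the configuration whose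
ring connections are no larger. -/
def Dominated (P : Pat) : Prop :=
  ∀ c : ℕ → Pt, Good P.Q c → ∃ e : ℕ → Pt,
    (∀ r, P.IsRing r → e r = c (P.block r)) ∧ Good P.K e ∧
    ∀ s r r', P.IsRing r → P.IsRing r' → (slopeGraph P.K e s).Reachable r r' →
      (slopeGraph P.Q c s).Reachable (P.block r) (P.block r')

/-- the block of `r` contains at least two ring labels -/
def Merged (P : Pat) (r : ℕ) : Prop := ∃ r', P.IsRing r' ∧ r' ≠ r ∧ P.block r' = P.block r

/-- The geometric conditions under which the extension argument works. -/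
structure Placed {V : Type} (G : SimpleGraph V) (P : Pat) (ψ : ℕ → V) : Prop where
  link : ∀ v, v < P.nI → IsLink G (ψ v) ((P.link v).map ψ)
  inj : ∀ a b, a < P.N → b < P.N → ψ a = ψ b → a = b
  nonadj : ∀ r r', P.IsRing r → P.IsRing r' → r ≠ r' → ¬ P.K.Adj r r' →
    (P.block r = P.block r' ∨ P.Q.Adj (P.block r) (P.block r') ∨ (P.Merged r ∧ P.Merged r')) →
    ¬ G.Adj (ψ r) (ψ r')
  common : ∀ r r', P.IsRing r → P.IsRing r' → r ≠ r' → ¬ P.K.Adj r r' → P.block r = P.block r' →
    ∀ z : V, G.Adj z (ψ r) → G.Adj z (ψ r') → ∃ a, a < P.N ∧ ψ a = z ∧ P.K.Adj a r ∧ P.K.Adj a r'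

end Pat

/-! ## E: soundness of the contraction argument -/

/-- E1: replacing part of a forest. -/
def ReplaceStatement : Prop :=
  ∀ (V V' : Type) (A AK : SimpleGraph V) (B BQ : SimpleGraph V') (φ : V → V'),
    AK ≤ A → BQ ≤ B → B.IsAcyclic → AK.IsAcyclic →
    (∀ u v, A.Adj u v → ¬ AK.Adj u v → B.Adj (φ u) (φ v) ∧ ¬ BQ.Adj (φ u) (φ v)) →
    (∀ u v u' v', A.Adj u v → ¬ AK.Adj u v → A.Adj u' v' → ¬ AK.Adj u' v' →
      s(φ u, φ v) = s(φ u', φ v') → s(u, v) = s(u', v')) →
    (∀ u v, AK.Reachable u v → (∃ w, A.Adj u w ∧ ¬ AK.Adj u w) → (∃ w, A.Adj v w ∧ ¬ AK.Adj v w) →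
      BQ.Reachable (φ u) (φ v)) →
    A.IsAcyclic

/-- E2: a placed dominated pattern cannot occur in a minimal counterexample. -/
def SoundStatement : Prop :=
  ∀ (V : Type) (G : SimpleGraph V), MinCE G → ∀ (P : Pat) (ψ : ℕ → V), P.WF → P.Dominated →
    P.Placed G ψ → False

/-! ## C, continued: adjacent vertices of degrees 4,4 and 4,5 -/

/-- adjacent 4-vertices: interior 0, 1; ring 2, 3, 4, 5 -/
def P44 : Pat where
  links := [[1, 3, 4, 5], [5, 2, 3, 0]]
  N := 6
  blk := [1, 0, 0, 1, 2, 3]

/-- a 4-vertex adjacent to a 5-vertex: interior 0 (degree 4), 1 (degree 5); ring 2..6 -/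
def P45 : Pat where
  links := [[1, 4, 5, 6], [6, 2, 3, 4, 0]]
  N := 7
  blk := [2, 5, 0, 1, 2, 3, 4]

/-- C4: adjacent 4-vertices do not exist. -/
def No44Statement : Prop :=
  ∀ (V : Type) (G : SimpleGraph V), MinCE G → ∀ u v, G.Adj u v → dg G u = 4 → dg G v ≠ 4

/-- C5: a 4-vertex is not adjacent to a 5-vertex. -/
def No45Statement : Prop :=
  ∀ (V : Type) (G : SimpleGraph V), MinCE G → ∀ u v, G.Adj u v → dg G u = 4 → dg G v ≠ 5

/-- C6: innermost regions exist. -/
def RegionStatement : Prop :=
  ∀ (V : Type) (G : SimpleGraph V), MinCE G → ∃ (C : List V) (X : Set V), Region G C X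

/-! ## Basic facts on links (module LAPI) -/

/-- rotations and reflections of links; uniqueness; prescribed first neighbour; common
neighbours of the ends of an edge; a closed walk of common neighbours is the whole link -/
structure LinkApi : Prop where
  rotate : ∀ (V : Type) (G : SimpleGraph V) (v : V) (l : List V) (n : ℕ), IsLink G v l →
    IsLink G v (l.rotate n)
  reverse : ∀ (V : Type) (G : SimpleGraph V) (v : V) (l : List V), IsLink G v l →
    IsLink G v l.reverse
  first : ∀ (V : Type) (G : SimpleGraph V) (v a b : V) (l : List V), IsLink G v l →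
    G.Adj v a → G.Adj v b → G.Adj a b → ∃ l', IsLink G v (a :: b :: l') ∧ l'.length + 2 = l.length
  dg : ∀ (V : Type) (G : SimpleGraph V) (v : V) (l : List V), IsLink G v l → dg G v = l.length
  common : ∀ (V : Type) (G : SimpleGraph V) (u v : V) (l : List V), IsLink G u l → G.Adj u v →
    ∃ a b, a ≠ b ∧ ¬ G.Adj a b ∧ ∀ x, (G.Adj x u ∧ G.Adj x v) ↔ (x = a ∨ x = b)
  /-- a closed walk of distinct neighbours is the whole link -/
  closed : ∀ (V : Type) (G : SimpleGraph V) (v : V) (l m : List V), IsLink G v l →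
    m.Nodup → 3 ≤ m.length → (∀ x ∈ m, G.Adj v x) →
    (∀ i, ∀ (h : i < m.length), G.Adj (m[i]) (m[(i + 1) % m.length]'(Nat.mod_lt _ (by omega)))) →
    IsLink G v m

/-! ## D: geometry of realized patterns -/

/-- cyclically consecutive, as a Boolean -/
def consB (l : List ℕ) (a b : ℕ) : Bool :=
  (l.zip (l.rotate 1)).any
    (fun q => (Nat.beq q.1 a && Nat.beq q.2 b) || (Nat.beq q.1 b && Nat.beq q.2 a))

def memB (l : List ℕ) (a : ℕ) : Bool := l.any (fun x => Nat.beq x a)

namespace Pat

/-- adjacency of `K`, as a Boolean -/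
def kB (P : Pat) (a b : ℕ) : Bool :=
  !(Nat.beq a b) && (List.range P.nI).any (fun v =>
    (Nat.beq a v && memB (P.link v) b) || (Nat.beq b v && memB (P.link v) a) ||
      consB (P.link v) a b)

/-- `u`, `x` are consecutive in the link of `v` -/
def cB (P : Pat) (v u x : ℕ) : Bool := Nat.blt v P.nI && consB (P.link v) u x

def ringB (P : Pat) (r : ℕ) : Bool := Nat.ble P.nI r && Nat.blt r P.N

def qB (P : Pat) (b c : ℕ) : Bool :=
  !(Nat.beq b c) && (List.range P.N).any (fun x => Nat.beq (P.block x) b &&
    (List.range P.N).any (fun y => Nat.beq (P.block y) c && P.kB x y))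

def mergedB (P : Pat) (r : ℕ) : Bool :=
  (List.range P.N).any (fun r' => P.ringB r' && !(Nat.beq r' r) &&
    Nat.beq (P.block r') (P.block r))

/-- `p` is a path through interior labels without shortcuts at its inner vertices -/
def pathB (P : Pat) (p : List ℕ) : Bool :=
  match p with
  | [x0, x1, x2] => Nat.blt x1 P.nI && memB (P.link x1) x0 && memB (P.link x1) x2 &&
      !(P.cB x1 x0 x2) && !(Nat.beq x0 x2)
  | x0 :: x1 :: x2 :: x3 :: t => Nat.blt x1 P.nI && memB (P.link x1) x0 &&
      memB (P.link x1) x2 && !(P.cB x1 x0 x2) && !(Nat.beq x0 x2) &&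
      P.pathB (x1 :: x2 :: x3 :: t)
  | _ => false

def excB (exc : List (ℕ × ℕ)) (u d : ℕ) : Bool :=
  exc.any (fun q => Nat.beq q.1 u && Nat.beq q.2 d)

/-- conditions on the path for: the images of its ends are different -/
def f1B (P : Pat) (exc : List (ℕ × ℕ)) (p : List ℕ) : Bool :=
  match p with
  | [_, _, _] => true
  | [_, _, _, _] => true
  | [x0, x1, x2, x3, x4] => (P.link x1).all (fun u =>
      !(P.cB x1 u x0 && P.cB x1 u x2 && P.cB x2 u x1 && P.cB x2 u x3 && P.cB x3 u x2 &&
        P.cB x3 u x4) || excB exc u 4)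
  | [x0, x1, x2, x3, x4, x5] => (P.link x2).all (fun u =>
      !(P.cB x1 u x2 && P.cB x2 u x1 && P.cB x2 u x3 && P.cB x3 u x2 && P.cB x3 u x4 &&
        P.cB x4 u x3) ||
      (excB exc u 4 && (!(P.cB x1 u x0 && P.cB x4 u x5) || excB exc u 5)))
  | _ => false

/-- conditions on the path for: the images of its ends are not adjacent -/
def f2B (P : Pat) (exc : List (ℕ × ℕ)) (p : List ℕ) : Bool :=
  match p with
  | [_, _, _] => true
  | [x0, x1, x2, x3] => (P.link x1).all (fun u =>
      !(P.cB x1 u x0 && P.cB x1 u x2 && P.cB x2 u x1 && P.cB x2 u x3) || excB exc u 4)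
  | [x0, x1, x2, x3, x4] => (P.link x2).all (fun u =>
      !(P.cB x1 u x2 && P.cB x2 u x1 && P.cB x2 u x3 && P.cB x3 u x2) ||
      ((!(P.cB x1 u x0) || excB exc u 4) && (!(P.cB x3 u x4) || excB exc u 4) &&
        (!(P.cB x1 u x0 && P.cB x3 u x4) || excB exc u 5)))
  | _ => false

/-- one half of the condition for paths of length three in `f3B` -/
def f3halfB (P : Pat) (exc : List (ℕ × ℕ)) (x t s y : ℕ) : Bool :=
  (P.link t).all (fun a => !(P.cB t a x) || (P.link t).all (fun u =>
    !(P.cB t u a && P.cB t u s && P.cB s u t && P.cB s u y) || Nat.blt u P.nI || excB exc u 4))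

/-- conditions on the path for: every common neighbour of the images of its ends is adjacent
to both in `K` -/
def f3B (P : Pat) (exc : List (ℕ × ℕ)) (p : List ℕ) : Bool :=
  match p with
  | [x, t, y] => (P.link t).all (fun u => !(P.cB t u x && P.cB t u y) || Nat.blt u P.nI ||
      excB exc u 4)
  | [x, t, s, y] => !((List.range P.N).any (fun a => P.kB a x && P.kB a y)) &&
      P.f3halfB exc x t s y && P.f3halfB exc y s t x
  | _ => false

/-- the conditions for the nonadjacent labels `x < y` with the path `p` -/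
def pairB (P : Pat) (exc : List (ℕ × ℕ)) (x y : ℕ) (p : List ℕ) : Bool :=
  Nat.beq (p.getD 0 0) x && Nat.beq (p.getD (p.length - 1) 0) y && P.pathB p && P.f1B exc p &&
  (!(P.ringB x && P.ringB y) ||
    ((!(Nat.beq (P.block x) (P.block y) || P.qB (P.block x) (P.block y) ||
        (P.mergedB x && P.mergedB y)) || P.f2B exc p) &&
      (!(Nat.beq (P.block x) (P.block y)) || P.f3B exc p)))

/-- all pairs `x < y < N` of labels that are not adjacent in `K` -/
def nonPairs (P : Pat) : List (ℕ × ℕ) :=
  (List.range P.N).flatMap (fun x => ((List.range P.N).filter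
    (fun y => Nat.blt x y && !(P.kB x y))).map (fun y => (x, y)))

/-- The geometric check: `paths` lists one path for each pair of `nonPairs`, in order. -/
def geoB (P : Pat) (exc : List (ℕ × ℕ)) (paths : List (List ℕ)) : Bool :=
  Nat.beq P.nonPairs.length paths.length &&
  (P.nonPairs.zip paths).all (fun q => P.pairB exc q.1.1 q.1.2 q.2)

end Pat

/-- D1: a realized pattern is placed, unless a ring label has an exceptional degree. -/
def GeoStatement : Prop :=
  ∀ (V : Type) (G : SimpleGraph V) (C : List V) (X : Set V), MinCE G → Region G C X →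
    ∀ (P : Pat) (exc : List (ℕ × ℕ)) (paths : List (List ℕ)) (ψ : ℕ → V), P.WF →
      P.geoB exc paths = true → Realizes G X P.entries ψ →
      (∀ q ∈ exc, ψ q.1 ∈ X → dg G (ψ q.1) ≠ q.2) → P.Placed G ψ

/-- the entries cannot be realized in `X` -/
def Excluded {V : Type} (G : SimpleGraph V) (X : Set V) (E : Entries) : Prop :=
  ¬ ∃ ψ : ℕ → V, Realizes G X E ψ

/-- the renaming of labels used when the walk `p` around `u` is longer than the degree `d` -/
def renB (p : List ℕ) (d : ℕ) (a : ℕ) : ℕ :=
  match (p.drop d).findIdx? (fun x => Nat.beq x a) with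
  | some i => p.getD i 0
  | none => a

/-- the entries of `P` together with the new entry of the ring label `u` of degree `d`;
`p` is the walk around `u` inside `K` -/
def Pat.ext (P : Pat) (u d : ℕ) (p : List ℕ) : Entries :=
  (P.entries.map (fun e => (renB p d e.1, e.2.map (renB p d)))) ++
    [(u, p.take d ++ (List.range (d - p.length)).map (fun i => P.N + i))]

/-- `p` is a walk around `u`: its inner labels are interior, and `u` sits between its
neighbours in their links -/
def Pat.aroundB (P : Pat) (u : ℕ) (p : List ℕ) : Bool :=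
  match p with
  | [x, v, y] => P.cB v x u && P.cB v u y && !(Nat.beq x y)
  | x :: v :: y :: z :: t => P.cB v x u && P.cB v u y && !(Nat.beq x y) &&
      P.aroundB u (v :: y :: z :: t)
  | _ => false

/-- equality of lists of numbers -/
def eqB : List ℕ → List ℕ → Bool
  | [], [] => true
  | a :: s, b :: t => Nat.beq a b && eqB s t
  | _, _ => false

/-- equality up to rotation and reflection -/
def dihB (l m : List ℕ) : Bool :=
  (List.range l.length).any (fun i => eqB (l.rotate i) m || eqB ((l.reverse).rotate i) m)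

/-- the pattern entries `F` match into `E` through the relabelling `ι` -/
def matchB (F E : Entries) (ι : List ℕ) : Bool :=
  F.all (fun f => E.any (fun e => Nat.beq e.1 (ι.getD f.1 0) &&
    dihB (f.2.map (fun a => ι.getD a 0)) e.2))

/-- matching entries are realized together -/
def MatchStatement : Prop :=
  ∀ (V : Type) (G : SimpleGraph V) (X : Set V) (E F : Entries) (ι : List ℕ),
    matchB F E ι = true → Excluded G X F → Excluded G X E

/-- D2: the exceptional degrees are impossible if they create an excluded pattern. -/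
def FallbackStatement : Prop :=
  ∀ (V : Type) (G : SimpleGraph V) (C : List V) (X : Set V), MinCE G → Region G C X →
    ∀ (P : Pat) (u d : ℕ) (p : List ℕ) (ψ : ℕ → V), P.WF → P.ringB u = true → 4 ≤ d →
      d + 2 ≥ p.length → P.aroundB u p = true → Realizes G X P.entries ψ →
      Excluded G X (P.ext u d p) → ψ u ∈ X → dg G (ψ u) ≠ d

/-! ## certificates of patterns -/

/-- step inside a block: an edge of `K` with an interior end -/
def Pat.stepB (P : Pat) (x y : ℕ) : Bool :=
  (Nat.blt x P.nI || Nat.blt y P.nI) && P.kB x y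

/-- every element of `L` after the first is joined by a step to an earlier one (`seen`) -/
def Pat.connB (P : Pat) (seen : List ℕ) (L : List ℕ) : Bool :=
  match L with
  | [] => true
  | x :: t => seen.any (fun y => P.stepB y x) && P.connB (x :: seen) t

def nodupB : List ℕ → Bool
  | [] => true
  | a :: t => !(memB t a) && nodupB t

/-- `bl[b]` lists the labels of block `b` in an order in which each one is joined to an
earlier one -/
def Pat.wfB (P : Pat) (bl : List (List ℕ)) : Bool :=
  Nat.ble P.nI P.N &&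
  (List.range P.nI).all (fun v =>
    (P.link v).all (fun a => Nat.blt a P.N && !(Nat.beq a v) &&
      (!(Nat.blt a P.nI) || (memB (P.link a) v &&
        (P.link v).all (fun b => !(consB (P.link v) a b) || consB (P.link a) v b)))) &&
    nodupB (P.link v) && Nat.ble 4 (P.link v).length) &&
  (List.range P.N).all (fun a => memB (bl.getD (P.block a) []) a) &&
  (List.range bl.length).all (fun b =>
    (bl.getD b []).all (fun a => Nat.blt a P.N && Nat.beq (P.block a) b) &&
    (match bl.getD b [] with
      | [] => true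
      | x :: t => P.connB [x] t)) &&
  bl.any (fun L => Nat.ble 2 L.length && nodupB L)

/-- WFC: soundness of the consistency check. -/
def WFStatement : Prop :=
  ∀ (P : Pat) (bl : List (List ℕ)), P.wfB bl = true → P.WF

/-- Everything that is checked about one pattern, except domination. -/
structure PatCert where
  P : Pat
  bl : List (List ℕ)
  exc : List (ℕ × ℕ)
  paths : List (List ℕ)
  /-- for each exceptional pair: an earlier pattern, the walk around the ring label, the
  relabelling -/
  fb : List (ℕ × List ℕ × List ℕ)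

/-- `links` lists the link lists of all patterns; `i` is the position of the pattern -/
def PatCert.certB (c : PatCert) (links : List (List (List ℕ))) (i : ℕ) : Bool :=
  c.P.wfB c.bl && c.P.geoB c.exc c.paths &&
  Nat.beq c.exc.length c.fb.length &&
  (c.exc.zip c.fb).all (fun q =>
    c.P.ringB q.1.1 && Nat.ble 4 q.1.2 && Nat.ble q.2.2.1.length (q.1.2 + 2) &&
    c.P.aroundB q.1.1 q.2.2.1 && Nat.blt q.2.1 i &&
    matchB (Pat.entries ⟨links.getD q.2.1 [], 0, []⟩) (c.P.ext q.1.1 q.1.2 q.2.2.1) q.2.2.2)

/-- ASM: all patterns of a certified list are excluded in every region. -/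
def CertStatement : Prop :=
  ∀ (certs : List PatCert),
    (∀ i, ∀ h : i < certs.length,
      (certs[i]).certB (certs.map (fun c => c.P.links)) i = true ∧ (certs[i]).P.Dominated) →
    ∀ (V : Type) (G : SimpleGraph V) (C : List V) (X : Set V), MinCE G → Region G C X →
      ∀ c ∈ certs, Excluded G X c.P.entries

/-! ## the final statement -/

/-- A colouring of the edges is strongly woody if no broken cycle (a path with at least two
edges whose ends are adjacent) is monochromatic. -/
def StronglyWoody {V : Type} (G : SimpleGraph V) {k : ℕ} (col : Sym2 V → Fin k) : Prop :=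
  ∀ (u v : V) (w : G.Walk u v), w.IsPath → 2 ≤ w.length → G.Adj u v →
    ¬ ∃ c, ∀ e ∈ w.edges, col e = c

/-- COL: good maps give strongly woody colourings. -/
def ColouringStatement : Prop :=
  ∀ (V : Type) (G : SimpleGraph V), (∃ p, Good G p) → ∃ col : Sym2 V → Fin 4,
    StronglyWoody G col

end StrongArb
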