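import Pool.Agent.Lib.MP_39c2b7_co.Interfaces

/-!
# Strong arboricity of planar graphs: discharging, statements of the data-independent modules
-/

namespace StrongArb

/-! ## TOTAL: from weights to a contradiction -/

/-- TOTAL: there are no weights with these properties (`w t h` = amount sent from `t` to `h`,
in units of `1 / M`). -/
def TotalStatement : Prop :=
  ∀ (V : Type) (G : SimpleGraph V) (C : List V) (X : Set V), MinCE G → Region G C X →
    ∀ (M : ℕ) (w : V → V → ℕ), 0 < M →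
      (∀ t h, w t h ≠ 0 → t ∈ X ∧ G.Adj t h ∧ (dg G t = 4 ∨ dg G t = 5) ∧
        (h ∈ C ∨ (h ∈ X ∧ 7 ≤ dg G h))) →
      (∀ t ∈ X, dg G t = 4 → 2 * M ≤ ∑ᶠ h, w t h) →
      (∀ t ∈ X, dg G t = 5 → M ≤ ∑ᶠ h, w t h) →
      (∀ t ∈ X, dg G t = 4 → ∀ z, w t z ≤ 2 * M ∧ ∀ z', G.Adj z z' → w t z + w t z' ≤ 2 * M) →
      (∀ t ∈ X, dg G t = 5 → ∀ z, w t z ≤ M ∧ ∀ z', G.Adj z z' → w t z + w t z' ≤ M) →
      (∀ h ∈ X, 7 ≤ dg G h → ∑ᶠ t, w t h ≤ M * (dg G h - 6)) →
      False

/-! ## Hub sequences -/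

/-- `n i` are the neighbours of `h` in cyclic order, `o i` is the common neighbour of `n i` and
`n (i+1)` other than `h`. -/
structure HubSeq {V : Type} (G : SimpleGraph V) (h : V) (n o : ℕ → V) (D : ℕ) : Prop where
  four : 4 ≤ D
  perN : ∀ i, n (i + D) = n i
  perO : ∀ i, o (i + D) = o i
  link : IsLink G h ((List.range D).map n)
  ne : ∀ i, o i ≠ h
  apex : ∀ i x, (G.Adj x (n i) ∧ G.Adj x (n (i + 1))) ↔ (x = h ∨ x = o i)

/-- HSEQ -/
def HubSeqStatement : Prop :=
  ∀ (V : Type) (G : SimpleGraph V), MinCE G → ∀ h, ∃ n o, HubSeq G h n o (dg G h)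

open Classical in
/-- status: the degree of a vertex of `X` if it is at most 8, otherwise 9 -/
noncomputable def stat {V : Type} (G : SimpleGraph V) (X : Set V) (v : V) : ℕ :=
  if v ∈ X ∧ dg G v ≤ 8 then dg G v else 9

/-- the links of the neighbours of a hub; `x k` are the remaining neighbours -/
structure HubLinks {V : Type} (G : SimpleGraph V) (h : V) (n o : ℕ → V) : Prop where
  four : ∀ i, dg G (n (i + 1)) = 4 → o i = o (i + 1) ∧
    IsLink G (n (i + 1)) [h, n (i + 2), o (i + 1), n i]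
  five : ∀ i, 5 ≤ dg G (n (i + 1)) → ∃ xs : List V, xs.length + 5 = dg G (n (i + 1)) ∧
    IsLink G (n (i + 1)) ([h, n (i + 2), o (i + 1)] ++ xs ++ [o i, n i])

/-- HLINK -/
def HubLinkStatement : Prop :=
  ∀ (V : Type) (G : SimpleGraph V), MinCE G → ∀ h n o D, HubSeq G h n o D → HubLinks G h n o

/-! ## The complex around a hub -/

/-- label of `n j` -/
def ln (j : ℕ) : ℕ := 3 * j + 1
/-- label of `o j` -/
def lo (j : ℕ) : ℕ := 3 * j + 2
/-- labels of the further neighbours of `n j` -/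
def lx (j k : ℕ) : ℕ := 1000 + 10 * j + k
/-- labels of the further neighbours of `o j` -/
def ly (j k : ℕ) : ℕ := 2000 + 10 * j + k

/-- next position: cyclic if `D ≠ 0` -/
def sc (D j : ℕ) : ℕ := if D = 0 then j + 1 else (j + 1) % D
/-- previous position -/
def pr (D j : ℕ) : ℕ := if D = 0 then j - 1 else (j + (D - 1)) % D

/-- the label used for `o j`: if `n j` has degree four then `o j = o (j-1)` -/
def lor (D : ℕ) (a : List ℕ) (j : ℕ) : ℕ := if a.getD j 0 = 4 then lo (pr D j) else lo j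

/-- entry of `n j` when its degree is `d` -/
def entN (D : ℕ) (a : List ℕ) (j d : ℕ) : ℕ × List ℕ :=
  if d = 4 then (ln j, [0, ln (sc D j), lor D a j, ln (pr D j)])
  else (ln j, [0, ln (sc D j), lor D a j] ++ (List.range (d - 5)).map (lx j) ++
    [lor D a (pr D j), ln (pr D j)])

/-- Entries of the neighbours `n j` with `a[j] ≠ 0` (then `a[j]` is the degree), and of the
hub itself if `D ≠ 0`. -/
def baseE (D : ℕ) (a : List ℕ) : Entries :=
  (if D = 0 then [] else [(0, (List.range D).map ln)]) ++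
    ((List.range a.length).filter (fun j => Nat.blt 0 (a.getD j 0))).map
      (fun j => entN D a j (a.getD j 0))

/-- `p` is a walk around `u` in the entries `E` -/
def aroundE (E : Entries) (u : ℕ) (p : List ℕ) : Bool :=
  match p with
  | [x, v, y] => !(Nat.beq x y) && E.any (fun e => Nat.beq e.1 v && consB e.2 x u &&
      consB e.2 u y)
  | x :: v :: y :: z :: t => !(Nat.beq x y) && E.any (fun e => Nat.beq e.1 v &&
      consB e.2 x u && consB e.2 u y) && aroundE E u (v :: y :: z :: t)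
  | _ => false

/-- the label `u` does not occur in `E` -/
def freshB (E : Entries) (u : ℕ) : Bool :=
  E.all (fun e => !(Nat.beq e.1 u) && !(memB e.2 u))

/-- EXT: adding the entry of a label of known degree, with a known walk around it -/
def ExtStatement : Prop :=
  ∀ (V : Type) (G : SimpleGraph V) (X : Set V), MinCE G →
    ∀ (E : Entries) (u d : ℕ) (p fr : List ℕ) (ψ : ℕ → V),
      Realizes G X E ψ → aroundE E u p = true → p.length + fr.length = d →
      nodupB fr = true → (∀ y ∈ fr, freshB E y = true ∧ y ≠ u ∧ y ∉ p) →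
      ψ u ∈ X → dg G (ψ u) = d →
      ∃ ψ' : ℕ → V, (∀ a, a ∉ fr → ψ' a = ψ a) ∧ Realizes G X (E ++ [(u, p ++ fr)]) ψ'

/-- A certificate that a conjunction of statuses around a hub creates a pattern. -/
structure HubCert where
  /-- degree of the hub if the hub is used, 0 otherwise -/
  D : ℕ
  /-- statuses of `n j`, 0 = no condition; if `D = 0` then `a[0] = 0` -/
  a : List ℕ
  /-- statuses of `o j`, 0 = no condition -/
  b : List ℕ
  /-- for the used `o j` the walk around it -/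
  os : List (ℕ × List ℕ)
  /-- the pattern and the relabelling -/
  pat : ℕ
  iota : List ℕ

namespace HubCert

/-- the statuses `A`, `B` satisfy the conditions of `c` at the shift `s` -/
def Holds (c : HubCert) (A B : ℕ → ℕ) (s : ℕ) : Prop :=
  ∀ j, (c.a.getD j 0 ≠ 0 → A (s + j) = c.a.getD j 0) ∧
    (c.b.getD j 0 ≠ 0 → B (s + j) = c.b.getD j 0)

/-- add the entries of the used `o j` -/
def addO (b : List ℕ) (os : List (ℕ × List ℕ)) (E : Entries) : Entries :=
  match os with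
  | [] => E
  | q :: t => addO b t (E ++ [(lo q.1, q.2 ++
      (List.range (b.getD q.1 0 - q.2.length)).map (ly q.1))])

/-- check of the steps of `addO` -/
def stepsB (b : List ℕ) (os : List (ℕ × List ℕ)) (E : Entries) : Bool :=
  match os with
  | [] => true
  | q :: t => Nat.ble 4 (b.getD q.1 0) && Nat.ble q.2.length (b.getD q.1 0) &&
      aroundE E (lo q.1) q.2 &&
      ((List.range (b.getD q.1 0 - q.2.length)).all (fun k => freshB E (ly q.1 k) &&
        !(memB q.2 (ly q.1 k)))) &&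
      stepsB b t (E ++ [(lo q.1, q.2 ++
        (List.range (b.getD q.1 0 - q.2.length)).map (ly q.1))])

def okB (c : HubCert) (links : List (List (List ℕ))) : Bool :=
  (if c.D = 0 then Nat.beq (c.a.getD 0 0) 0
    else Nat.ble 4 c.D && Nat.beq c.a.length c.D && Nat.ble c.b.length c.D) &&
  c.a.all (fun x => Nat.beq x 0 || (Nat.ble 4 x && Nat.ble x 8)) &&
  c.b.all (fun x => Nat.beq x 0 || (Nat.ble 4 x && Nat.ble x 8)) &&
  Nat.ble c.a.length 20 && Nat.ble c.b.length 20 &&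
  stepsB c.b c.os (baseE c.D c.a) &&
  matchB (Pat.entries ⟨links.getD c.pat [], 0, []⟩) (addO c.b c.os (baseE c.D c.a)) c.iota

end HubCert

/-- HUBX: certified conjunctions do not hold around any hub. -/
def HubXStatement : Prop :=
  ∀ (V : Type) (G : SimpleGraph V) (C : List V) (X : Set V), MinCE G → Region G C X →
    ∀ (c : HubCert) (links : List (List (List ℕ))), c.okB links = true →
      Excluded G X (Pat.entries ⟨links.getD c.pat [], 0, []⟩) →
      ∀ (h : V) (n o : ℕ → V) (D : ℕ), HubSeq G h n o D → (c.D = 0 ∨ (c.D = D ∧ h ∈ X)) →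
        ∀ s, ¬ c.Holds (fun i => stat G X (n i)) (fun i => stat G X (o i)) s

/-! ## Weights -/

/-- class of a status: 6, 7, 8, 9 -/
def kc (s : ℕ) : ℕ := if s ≤ 6 then 6 else s

/-- status sequences around a hub of degree `D` -/
structure StatSeq (D : ℕ) (A B : ℕ → ℕ) : Prop where
  perA : ∀ i, A (i + D) = A i
  perB : ∀ i, B (i + D) = B i
  rangeA : ∀ i, 4 ≤ A i ∧ A i ≤ 9
  rangeB : ∀ i, 4 ≤ B i ∧ B i ≤ 9
  four : ∀ i, A (i + 1) = 4 → B i = B (i + 1)
  no44 : ∀ i, ¬ (A i = 4 ∧ A (i + 1) = 4)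

/-- A weight table: `w4 r x y z` is sent by a 4-vertex to a neighbour of class `r` if the
classes of the other neighbours in cyclic order are `x, y, z`. -/
structure WTable where
  w4 : ℕ → ℕ → ℕ → ℕ → ℕ
  w5 : ℕ → ℕ → ℕ → ℕ → ℕ → ℕ

/-- amount received from `n (i+1)` -/
def WTable.recv (T : WTable) (r : ℕ) (A B : ℕ → ℕ) (i : ℕ) : ℕ :=
  if A (i + 1) = 4 then T.w4 r (kc (A (i + 2))) (kc (B (i + 1))) (kc (A i))
  else if A (i + 1) = 5 then
    T.w5 r (kc (A (i + 2))) (kc (B (i + 1))) (kc (B i)) (kc (A i))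
  else 0

/-- the conditions on the table, in units of `1 / M` (all arguments in {6,7,8,9}) -/
structure WTable.Valid (T : WTable) (M : ℕ) : Prop where
  pos : 0 < M
  zero4 : ∀ x y z, T.w4 6 x y z = 0
  zero5 : ∀ x y z u, T.w5 6 x y z u = 0
  refl4 : ∀ r ∈ Finset.Icc 6 9, ∀ x ∈ Finset.Icc 6 9, ∀ y ∈ Finset.Icc 6 9,
    ∀ z ∈ Finset.Icc 6 9, T.w4 r x y z = T.w4 r z y x
  refl5 : ∀ r ∈ Finset.Icc 6 9, ∀ x ∈ Finset.Icc 6 9, ∀ y ∈ Finset.Icc 6 9,
    ∀ z ∈ Finset.Icc 6 9, ∀ u ∈ Finset.Icc 6 9, T.w5 r x y z u = T.w5 r u z y x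
  /-- at least two of the four classes are at least 7: the 4-vertex sends enough -/
  sum4 : ∀ r ∈ Finset.Icc 6 9, ∀ x ∈ Finset.Icc 6 9, ∀ y ∈ Finset.Icc 6 9,
    ∀ z ∈ Finset.Icc 6 9, 2 ≤ ([r, x, y, z].filter (fun c => decide (7 ≤ c))).length →
    2 * M ≤ T.w4 r x y z + T.w4 x y z r + T.w4 y z r x + T.w4 z r x y
  sum5 : ∀ r ∈ Finset.Icc 6 9, ∀ x ∈ Finset.Icc 6 9, ∀ y ∈ Finset.Icc 6 9,
    ∀ z ∈ Finset.Icc 6 9, ∀ u ∈ Finset.Icc 6 9,
    1 ≤ ([r, x, y, z, u].filter (fun c => decide (7 ≤ c))).length →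
    M ≤ T.w5 r x y z u + T.w5 x y z u r + T.w5 y z u r x + T.w5 z u r x y + T.w5 u r x y z
  /-- not more than the whole charge goes to one vertex or to two adjacent vertices -/
  cap4 : ∀ r ∈ Finset.Icc 6 9, ∀ x ∈ Finset.Icc 6 9, ∀ y ∈ Finset.Icc 6 9,
    ∀ z ∈ Finset.Icc 6 9, T.w4 r x y z + T.w4 x y z r ≤ 2 * M
  cap5 : ∀ r ∈ Finset.Icc 6 9, ∀ x ∈ Finset.Icc 6 9, ∀ y ∈ Finset.Icc 6 9,
    ∀ z ∈ Finset.Icc 6 9, ∀ u ∈ Finset.Icc 6 9, T.w5 r x y z u + T.w5 x y z u r ≤ M

/-- the bound at hubs of degree `D`: pure combinatorics of status sequences -/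
def CombAt (T : WTable) (M : ℕ) (cs : List HubCert) (D : ℕ) : Prop :=
  ∀ (A B : ℕ → ℕ), StatSeq D A B →
    (∀ c ∈ cs, (c.D = 0 ∨ c.D = D) → ∀ s, ¬ c.Holds A B s) →
    ∑ i ∈ Finset.range D, T.recv (kc (if D ≤ 8 then D else 9)) A B i ≤ M * (D - 6)

/-- low vertices have enough big neighbours: pure combinatorics of status sequences -/
def LowAt (cs : List HubCert) (D k : ℕ) : Prop :=
  ∀ (A B : ℕ → ℕ), StatSeq D A B →
    (∀ c ∈ cs, (c.D = 0 ∨ c.D = D) → ∀ s, ¬ c.Holds A B s) →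
    k ≤ ((List.range D).filter (fun i => decide (7 ≤ A i))).length

/-- DISCH: all data together give a contradiction -/
def DischargeStatement : Prop :=
  ∀ (T : WTable) (M : ℕ) (cs : List HubCert) (certs : List PatCert), T.Valid M →
    (∀ c ∈ cs, c.okB (certs.map (fun c => c.P.links)) = true ∧ c.pat < certs.length) →
    LowAt cs 4 2 → LowAt cs 5 1 → (∀ D, 7 ≤ D → CombAt T M cs D) →
    ∀ (V : Type) (G : SimpleGraph V) (C : List V) (X : Set V), MinCE G → Region G C X →
      (∀ c ∈ certs, Excluded G X c.P.entries) → False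

end StrongArb
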